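import Pool.Agent.Helper63.PG.Alg

/-! # Project PG, module GMR: the graph `Γ` inside a class -/

set_option autoImplicit false

namespace Pool.Agent.Helper72.PG

open Pool.Agent.Helper63.PG Pool.Agent.Helper63.OC Pool.Agent.Helper24.OCM

theorem nr_zero_GMR {G : SimpleGraph ℕ} {t a b : ℕ} (h : nr G t a b 0) : b = a := by
  obtain ⟨p, hp⟩ := h
  exact (SimpleGraph.Walk.eq_of_length_eq_zero (by omega : p.length = 0)).symm

/-- the static neighbours for layer `0` -/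
theorem TT_zero_GMR {K k : ℕ} {G : SimpleGraph ℕ}
    (hV : ∀ v, hasp (H1 K G) v → Vs K k G v) {x τ c u : ℕ} (hu : u ∈ UU K k G x τ 0 c) :
    x ∈ TT k G (Pool.Agent.Helper63.PG.anc K G u) (tt K G u) u ∧ G.Adj u x ∧
    ∀ w ∈ TT k G (Pool.Agent.Helper63.PG.anc K G u) (tt K G u) u, w = x := by
  obtain ⟨h1, h2, h3, h4, h5⟩ := hu
  have hv := hV u h1
  obtain ⟨w, hw⟩ := hv.ne
  have hall : ∀ w ∈ TT k G (Pool.Agent.Helper63.PG.anc K G u) (tt K G u) u, w = x := by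
    intro w hw
    obtain ⟨a1, a2, a3, a4⟩ := hw
    rw [h2, h3, h4] at a3
    exact nr_zero_GMR a3
  have hwx := hall w hw
  rw [hwx] at hw
  exact ⟨hw, hw.2.1, hall⟩

/-- the static neighbours for layer `i + 1` -/
theorem TT_succ_GMR {K k : ℕ} {G : SimpleGraph ℕ}
    (hV : ∀ v, hasp (H1 K G) v → Vs K k G v) {x τ c i u : ℕ} (hu : u ∈ UU K k G x τ (i + 1) c)
    (w : ℕ) :
    w ∈ TT k G (Pool.Agent.Helper63.PG.anc K G u) (tt K G u) u ↔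
      (w ∈ {w | w ≤ τ ∧ nr G τ x w (i + 1) ∧ ¬ nr G τ x w i ∧ kc k G τ w = c} ∧ G.Adj w u) := by
  obtain ⟨h1, h2, h3, h4, h5⟩ := hu
  have hv := hV u h1
  have hmin := hv.laymin
  rw [h2, h3, h4] at hmin
  rw [h2, h3]
  unfold TT
  rw [h4, h5]
  constructor
  · rintro ⟨a1, a2, a3, a4⟩
    refine ⟨⟨a1, a3, ?_, a4⟩, a2.symm⟩
    intro hcon
    have := hmin w i a1 a2 hcon
    omega
  · rintro ⟨⟨a1, a2, a3, a4⟩, a5⟩
    exact ⟨a1, a5.symm, a2, a4⟩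

theorem hGMR {K k : ℕ} {G : SimpleGraph ℕ}
    (hV : ∀ v, hasp (H1 K G) v → Vs K k G v) (x τ c : ℕ) :
    (∀ u ∈ UU K k G x τ 0 c, G.Adj x u) ∧
    (∀ u ∈ UU K k G x τ 0 c, ∀ v ∈ UU K k G x τ 0 c, lab K k G u = lab K k G v →
      ((Gm K k G).Adj u v ↔ G.Adj u v)) ∧
    (∀ i, ∀ u ∈ UU K k G x τ (i + 1) c, ∀ v ∈ UU K k G x τ (i + 1) c,
      lab K k G u = lab K k G v →
      ((Gm K k G).Adj u v ↔
        (Gam G {w | w ≤ τ ∧ nr G τ x w (i + 1) ∧ ¬ nr G τ x w i ∧ kc k G τ w = c}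
          (UU K k G x τ (i + 1) c)).Adj u v)) := by
  refine ⟨?_, ?_, ?_⟩
  · intro u hu
    exact (TT_zero_GMR hV hu).2.1.symm
  · intro u hu v hv hl
    constructor
    · rintro ⟨h, -⟩
      exact h.1
    · intro h
      exact ⟨⟨h, hl⟩, x, (TT_zero_GMR hV hu).1, (TT_zero_GMR hV hv).1⟩
  · intro i u hu v hv hl
    constructor
    · rintro ⟨h, w, hw1, hw2⟩
      rw [TT_succ_GMR hV hu] at hw1
      rw [TT_succ_GMR hV hv] at hw2
      exact ⟨hu, hv, h.1, w, hw1.1, hw1.2, hw2.2⟩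
    · rintro ⟨-, -, h, w, hw, hwu, hwv⟩
      exact ⟨⟨h, hl⟩, w, (TT_succ_GMR hV hu w).2 ⟨hw, hwu⟩, (TT_succ_GMR hV hv w).2 ⟨hw, hwv⟩⟩

end Pool.Agent.Helper72.PG
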