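import Pool.Agent.Helper63.PG.Alg

/-! # Project PG, module LOC: locality of the clustering -/

set_option autoImplicit false

namespace Pool.Agent.Helper72.PG

open Pool.Agent.Helper63.PG Pool.Agent.Helper63.OC Pool.Agent.Helper24.OCM

theorem ci_LOC {K : ℕ} {G : SimpleGraph ℕ} {s v : ℕ} (h : v ≤ s) :
    ci K (pre G s) v = ci K G v := by
  unfold ci
  simp only [bal_pre h]

theorem cl_LOC {K : ℕ} {G : SimpleGraph ℕ} {s v : ℕ} (h : v ≤ s) :
    cl K (pre G s) v = cl K G v := by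
  unfold cl cj
  rw [ci_LOC h, bal_pre h]

theorem Bl_LOC {K : ℕ} {G : SimpleGraph ℕ} {s v : ℕ} (h : v ≤ s) :
    Bl K (pre G s) v = Bl K G v := by
  unfold Bl
  rw [ci_LOC h, bal_pre h]

theorem isAnc_LOC {K : ℕ} {G : SimpleGraph ℕ} {s : ℕ} :
    ∀ v ≤ s, (isAnc K (pre G s) v ↔ isAnc K G v) := by
  intro v
  induction v using Nat.strong_induction_on with
  | _ v ih =>
    intro hv
    rw [isAnc, isAnc]
    refine forall_congr' fun x => forall_congr' fun hx => ?_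
    rw [ih x hx (by omega), cl_LOC (by omega : x ≤ s), cl_LOC hv, Bl_LOC (by omega : x ≤ s),
      Bl_LOC hv]

theorem anc_LOC {K : ℕ} {G : SimpleGraph ℕ} {s v : ℕ} (h : v ≤ s) :
    anc K (pre G s) v = anc K G v := by
  unfold Pool.Agent.Helper63.PG.anc
  congr 1
  ext x
  rw [Set.mem_ofPred_eq, Set.mem_ofPred_eq]
  refine and_congr_right fun hx => ?_
  rw [isAnc_LOC x (by omega), cl_LOC (by omega : x ≤ s), cl_LOC h, Bl_LOC (by omega : x ≤ s),
    Bl_LOC h]

theorem near_LOC {K : ℕ} {G : SimpleGraph ℕ} {s w : ℕ} (h : w ≤ s) (x : ℕ) :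
    near K (pre G s) w x ↔ near K G w x := by
  unfold near
  refine and_congr_right fun hx => ?_
  rw [isAnc_LOC x (by omega), cl_LOC (by omega : x ≤ s), cl_LOC h, ci_LOC h, nr_pre h]

theorem ng_LOC {K : ℕ} {G : SimpleGraph ℕ} {s v : ℕ} (h : v ≤ s) (x y : ℕ) :
    ng K (pre G s) v x y ↔ ng K G v x y := by
  unfold ng
  refine exists_congr fun w => and_congr_right fun hw => ?_
  rw [near_LOC (by omega : w ≤ s), near_LOC (by omega : w ≤ s)]

theorem kap_LOC {K : ℕ} {G : SimpleGraph ℕ} {s : ℕ} :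
    ∀ v ≤ s, kap K (pre G s) v = kap K G v := by
  intro v
  induction v using Nat.strong_induction_on with
  | _ v ih =>
    intro hv
    rw [kap, kap]
    congr 1
    ext c
    rw [Set.mem_ofPred_eq, Set.mem_ofPred_eq]
    refine forall_congr' fun u => forall_congr' fun hu => ?_
    rw [cl_LOC (by omega : u ≤ s), cl_LOC hv, anc_LOC (by omega : u ≤ s), anc_LOC hv, ng_LOC hv,
      ih u hu (by omega)]

theorem hLOC {K : ℕ} {G : SimpleGraph ℕ} {s : ℕ} :
    (∀ v ≤ s, cl K (pre G s) v = cl K G v) ∧ (∀ v ≤ s, Bl K (pre G s) v = Bl K G v) ∧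
    (∀ v ≤ s, (isAnc K (pre G s) v ↔ isAnc K G v)) ∧
    (∀ v ≤ s, anc K (pre G s) v = anc K G v) ∧
    (∀ w ≤ s, ∀ x, (near K (pre G s) w x ↔ near K G w x)) ∧
    (∀ v ≤ s, ∀ x y, (ng K (pre G s) v x y ↔ ng K G v x y)) ∧
    (∀ v ≤ s, kap K (pre G s) v = kap K G v) ∧ (∀ v ≤ s, lab1 K (pre G s) v = lab1 K G v) := by
  refine ⟨fun v h => cl_LOC h, fun v h => Bl_LOC h, isAnc_LOC, fun v h => anc_LOC h,
    fun w h x => near_LOC h x, fun v h x y => ng_LOC h x y, kap_LOC, fun v h => ?_⟩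
  unfold lab1
  rw [cl_LOC h, kap_LOC v h]

end Pool.Agent.Helper72.PG
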