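import Pool.Agent.Helper63.PG.Alg

/-! # Project PG, module PER: perfect graphs have no odd holes -/

set_option autoImplicit false

namespace Pool.Agent.Helper72.PG

open Pool.Agent.Helper63.PG Pool.Agent.Helper63.OC Pool.Agent.Helper24.OCM

/-- adjacency in an induced cycle, symmetric form -/
theorem hol_adj_PER {H : SimpleGraph ℕ} {f : ℕ → ℕ} {L : ℕ} (hf : Hol H f L) {i j : ℕ}
    (hi : i < L) (hj : j < L) (hij : i ≠ j) :
    H.Adj (f i) (f j) ↔ (j = i + 1 ∨ i = j + 1 ∨ (i = 0 ∧ j + 1 = L) ∨ (j = 0 ∧ i + 1 = L)) := by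
  rcases Nat.lt_or_ge i j with h | h
  · rw [hf i j h hj]
    omega
  · rw [H.adj_comm, hf j i (by omega) hi]
    omega

theorem hol_lt_PER {n : ℕ} {G : SimpleGraph (Fin n)} {f : ℕ → ℕ} {L : ℕ} (h5 : 5 ≤ L)
    (hf : Hol (liftG G) f L) {i : ℕ} (hi : i < L) : f i < n := by
  rcases Nat.lt_or_ge (i + 1) L with h | h
  · obtain ⟨ha, -, -⟩ := (hol_adj_PER hf hi h (by omega)).2 (Or.inl rfl)
    exact ha
  · obtain ⟨ha, -, -⟩ := (hol_adj_PER hf hi (by omega : 0 < L) (by omega)).2
      (Or.inr (Or.inr (Or.inr ⟨rfl, by omega⟩)))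
    exact ha

theorem hPER {n : ℕ} (G : SimpleGraph (Fin n))
    (hG : ∀ S : Set (Fin n), ∃ m : ℕ, (G.induce S).Colorable m ∧
      ∃ s : Finset (Fin n), (↑s : Set (Fin n)) ⊆ S ∧ G.IsNClique m s) : NOH (liftG G) := by
  intro L hodd h5 f hf
  obtain ⟨m, hcol, s, hsS, hs⟩ := hG {v | ∃ i < L, f i = v.val}
  -- cliques have at most two vertices
  have hm : m ≤ 2 := by
    by_contra hcon
    rw [← hs.card_eq] at hcon
    obtain ⟨a, b, c, ha, hb, hc, hab, hac, hbc⟩ := Finset.two_lt_card_iff.1 (by omega : 2 < s.card)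
    obtain ⟨i, hi, hia⟩ := hsS ha
    obtain ⟨j, hj, hjb⟩ := hsS hb
    obtain ⟨k, hk, hkc⟩ := hsS hc
    have hadj : ∀ x y : Fin n, x ∈ s → y ∈ s → x ≠ y → (liftG G).Adj x.val y.val := by
      intro x y hx hy hxy
      exact ⟨x.2, y.2, hs.isClique hx hy hxy⟩
    have e1 := hadj a b ha hb hab
    have e2 := hadj a c ha hc hac
    have e3 := hadj b c hb hc hbc
    rw [← hia, ← hjb] at e1
    rw [← hia, ← hkc] at e2
    rw [← hjb, ← hkc] at e3
    have d1 : i ≠ j := by
      rintro rfl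
      exact (liftG G).loopless.irrefl _ e1
    have d2 : i ≠ k := by
      rintro rfl
      exact (liftG G).loopless.irrefl _ e2
    have d3 : j ≠ k := by
      rintro rfl
      exact (liftG G).loopless.irrefl _ e3
    rw [hol_adj_PER hf hi hj d1] at e1
    rw [hol_adj_PER hf hi hk d2] at e2
    rw [hol_adj_PER hf hj hk d3] at e3
    omega
  obtain ⟨C⟩ := hcol.mono hm
  -- the colours alternate
  obtain ⟨col, hcol2, hcoladj⟩ : ∃ col : ℕ → ℕ, (∀ i, col i < 2) ∧
      ∀ i j, i < L → j < L → (liftG G).Adj (f i) (f j) → col i ≠ col j := by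
    classical
    refine ⟨fun i => if h : i < L then
      (C ⟨⟨f i, hol_lt_PER h5 hf h⟩, ⟨i, h, rfl⟩⟩).val else 0, ?_, ?_⟩
    · intro i
      by_cases h : i < L
      · simp only [dif_pos h]
        exact (C _).2
      · simp only [dif_neg h]
        omega
    · intro i j hi hj hadj
      simp only [dif_pos hi, dif_pos hj]
      intro heq
      obtain ⟨ha, hb, hab⟩ := hadj
      exact C.valid (v := ⟨⟨f i, hol_lt_PER h5 hf hi⟩, ⟨i, hi, rfl⟩⟩)
        (w := ⟨⟨f j, hol_lt_PER h5 hf hj⟩, ⟨j, hj, rfl⟩⟩) hab (Fin.ext heq)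
  have hpar : ∀ i, i < L → col i % 2 = (col 0 + i) % 2 := by
    intro i
    induction i with
    | zero => intro _; simp
    | succ i ih =>
      intro hi
      have h1 := ih (by omega)
      have h2 := hcoladj i (i + 1) (by omega) hi
        ((hol_adj_PER hf (by omega) hi (by omega)).2 (Or.inl rfl))
      have h3 := hcol2 i
      have h4 := hcol2 (i + 1)
      omega
  have h1 := hpar (L - 1) (by omega)
  have h2 := hcoladj 0 (L - 1) (by omega) (by omega)
    ((hol_adj_PER hf (by omega) (by omega) (by omega)).2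
      (Or.inr (Or.inr (Or.inl ⟨rfl, by omega⟩))))
  have h3 := hcol2 0
  have h4 := hcol2 (L - 1)
  rw [Nat.odd_iff] at hodd
  omega

end Pool.Agent.Helper72.PG
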